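import Pool.Agent.N746.Self.Family

set_option autoImplicit false

/-! # The image of an abc triple in the thin family (the proof of the library theorem
`Pool.Agent.N746.Self.family`, stated as an existence theorem with uniform constants) -/

namespace Pool.Agent.U215.Thin

open Finset Filter Pool.Agent.N746.Self

theorem image (n N r : ℕ) (hn : 1 ≤ n) (hN : 1 ≤ N) (δ : ℝ) (hδ : 0 < δ) :
    ∃ (D : ℕ) (K : ℝ), 1 ≤ D ∧ 1 ≤ K ∧ ∀ (Y : ℕ → ℝ), (∀ i, 1 < Y i) → Tendsto Y atTop atTop →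
      (∀ i, Y (i + 1) ≤ (Y i) ^ r) → ∃ c₀ : ℕ, ∀ a b c : ℕ, 0 < a → 0 < b → Nat.Coprime a b →
        a + b = c → c₀ ≤ c →
        ∃ d a' b' c' : ℕ, 1 ≤ d ∧ d ≤ D ∧ 0 < a' ∧ 0 < b' ∧ Nat.Coprime a' b' ∧ a' + b' = c' ∧
          Dihedral n N δ Y a' b' c' ∧ (c : ℝ) ^ d ≤ K * c' ∧
          (R (a' * b' * c') : ℝ) ≤ K * R (a * b * c) * (c : ℝ) ^ (d - 1) := by
  have hn1 : (1 : ℝ) ≤ n := by exact_mod_cast hn
  set δ₁ : ℝ := min δ 1 with hδ₁
  have hδ0 : 0 < δ₁ := lt_min hδ one_pos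
  have hδ1 : δ₁ ≤ 1 := min_le_right _ _
  have hδδ : δ₁ ≤ δ := min_le_left _ _
  set η : ℝ := δ₁ / (64 * n) with hη
  have hη0 : 0 < η := by positivity
  have hηe : 64 * n * η = δ₁ := by rw [hη]; field_simp
  have hη1 : η < 1 / 8 := by nlinarith
  have hη2 : 64 * η ^ 2 ≤ 1 := by nlinarith
  have hη3 : n * (64 * η ^ 2) ≤ δ₁ := by
    have : n * (64 * η ^ 2) = (64 * n * η) * η := by ring
    rw [this, hηe]
    nlinarith
  obtain ⟨L, hL⟩ := exists_pow_lt_of_lt_one hη0 (show 1 - η < 1 by linarith)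
  have : NeZero (2 * N) := ⟨by omega⟩
  obtain ⟨m₀, hm₀, hidem⟩ := exists_pow_idem (2 * N)
  obtain ⟨A, hA⟩ : ∃ A : ℕ, 2 ≤ A * δ₁ := by
    obtain ⟨A, hA⟩ := exists_nat_ge (2 / δ₁)
    exact ⟨A, by rwa [div_le_iff₀ hδ0] at hA⟩
  have hA1 : 1 ≤ A := by
    rcases Nat.eq_zero_or_pos A with h | h
    · rw [h] at hA; norm_num at hA
    · exact h
  set B : ℕ := L * (r * A + 1) + A with hB
  have hBA : A ≤ B := by omega
  have hB' : 2 ≤ B * δ₁ := hA.trans (mul_le_mul_of_nonneg_right (by exact_mod_cast hBA) hδ0.le)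
  set J : ℕ := r * B + 1 with hJ
  set E : ℕ := 16 * n * (m₀ * J) with hE
  refine ⟨E, max (4 ^ (13 * n + 1)) E, ?_, le_trans (one_le_pow₀ (by norm_num)) (le_max_left _ _),
    fun Y hY hYt hYr => ?_⟩
  · exact Nat.mul_pos (by omega) (Nat.mul_pos (Nat.pos_of_ne_zero hm₀) (by omega))
  obtain ⟨C, hC⟩ := exists_nat_gt (Y 0)
  refine ⟨4 ^ (13 * n + 1) + C + 3, ?_⟩
  intro a b c ha hb hab habc hc
  have hc0 : 0 < c := by omega
  have hc3 : 3 ≤ c := le_trans (Nat.le_add_left _ _) hc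
  have hcR : (0 : ℝ) < c := by exact_mod_cast hc0
  have haR : (0 : ℝ) < a := by exact_mod_cast ha
  have hac : (a : ℝ) < c := by exact_mod_cast (show a < c by omega)
  have hcK : (4 : ℝ) ^ (13 * n + 1) + C + 3 ≤ c := by exact_mod_cast hc
  have h4pos : (1 : ℝ) ≤ 4 ^ (13 * n + 1) := one_le_pow₀ (by norm_num)
  have hCpos : (0 : ℝ) ≤ C := Nat.cast_nonneg _
  have hc1 : (1 : ℝ) ≤ c := by linarith
  set t : ℝ := (c : ℝ) ^ (16 * n * m₀) with ht
  have hct : (c : ℝ) ≤ t := by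
    calc (c : ℝ) = (c : ℝ) ^ 1 := (pow_one _).symm
      _ ≤ t := pow_le_pow_right₀ hc1 (Nat.mul_pos (by omega) (Nat.pos_of_ne_zero hm₀))
  have ht1 : 1 < t := by linarith
  -- the ratio
  set ρ : ℝ := (a : ℝ) / c with hρ
  have hρ0 : 0 < ρ := by positivity
  have hρ1 : ρ < 1 := by rw [hρ, div_lt_one hcR]; exact hac
  -- choice of the exponent
  obtain ⟨j, i, hj1, hjJ, hji1, hji2, hjρ⟩ : ∃ j i : ℕ, 1 ≤ j ∧ j ≤ J ∧
      Y i * 4 ^ (13 * n + 1) ≤ t ^ j ∧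
      t ^ j ≤ (Y i) ^ (1 + δ₁) ∧ (ρ ^ (m₀ * j) ≤ η ∨ 1 - η ≤ ρ ^ (m₀ * j)) := by
    obtain ⟨j₁, i₁, h1, h2, h3, h4⟩ := window r A δ₁ hδ0 hA Y hY hYt hYr (4 ^ (13 * n + 1)) t h4pos
      (by linarith) ht1 (by linarith)
    obtain ⟨j₂, i₂, g1, g2, g3, g4⟩ := window r B δ₁ hδ0 hB' Y hY hYt hYr (4 ^ (13 * n + 1)) t h4pos
      (by linarith) ht1 (by linarith)
    rcases le_or_gt (1 - η) (ρ ^ (m₀ * j₁)) with h | h
    · refine ⟨j₁, i₁, by omega, ?_, h3, h4, Or.inr h⟩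
      have : r * A ≤ r * B := Nat.mul_le_mul_left _ hBA
      omega
    · refine ⟨j₂, i₂, by omega, g2, g3, g4, Or.inl ?_⟩
      have hle : (m₀ * j₁) * L ≤ m₀ * j₂ := by
        have : j₁ * L ≤ j₂ := by
          calc j₁ * L ≤ (r * A + 1) * L := Nat.mul_le_mul_right _ h2
            _ = L * (r * A + 1) := by ring
            _ ≤ B := by omega
            _ ≤ j₂ := g1
        calc m₀ * j₁ * L = m₀ * (j₁ * L) := by ring
          _ ≤ _ := Nat.mul_le_mul_left _ this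
      calc ρ ^ (m₀ * j₂) ≤ ρ ^ ((m₀ * j₁) * L) := pow_le_pow_of_le_one hρ0.le hρ1.le hle
        _ = (ρ ^ (m₀ * j₁)) ^ L := pow_mul _ _ _
        _ ≤ (1 - η) ^ L := pow_le_pow_left₀ (by positivity) h.le L
        _ ≤ η := hL.le
  set m : ℕ := m₀ * j with hm
  have hm1 : 1 ≤ m := Nat.mul_pos (Nat.pos_of_ne_zero hm₀) hj1
  have hmJ : m ≤ m₀ * J := Nat.mul_le_mul_left _ hjJ
  have hlt : a ^ m < c ^ m := Nat.pow_lt_pow_left (by omega) (by omega)
  have ha1 : 0 < a ^ m := by positivity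
  have hac' : Nat.Coprime a c := by rw [← habc]; simpa using hab
  have hcop : Nat.Coprime (a ^ m) (c ^ m - a ^ m) := by
    rw [Nat.coprime_sub_self_right hlt.le]
    exact hac'.pow m m
  have hsum : a ^ m + (c ^ m - a ^ m) = c ^ m := by omega
  have hne : a ^ m ≠ c ^ m - a ^ m := by
    intro h
    rw [← h] at hcop
    rw [Nat.coprime_self] at hcop
    have h2 : c ^ m = 2 := by omega
    have h3 : c ^ 1 ≤ c ^ m := Nat.pow_le_pow_right hc0 hm1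
    rw [pow_one] at h3
    omega
  have hclose : (min ((a ^ m : ℕ) : ℝ) ((c ^ m - a ^ m : ℕ) : ℝ)) ≤ η * ((c ^ m : ℕ) : ℝ) := by
    have e : ((c ^ m - a ^ m : ℕ) : ℝ) = (c : ℝ) ^ m - (a : ℝ) ^ m := by
      rw [Nat.cast_sub hlt.le]; push_cast; ring
    have e2 : (a : ℝ) ^ m = ρ ^ m * (c : ℝ) ^ m := by rw [hρ, div_pow]; field_simp
    rw [e]
    push_cast
    rcases hjρ with h | h
    · refine (min_le_left _ _).trans ?_
      rw [e2]
      exact mul_le_mul_of_nonneg_right h (by positivity)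
    · refine (min_le_right _ _).trans ?_
      rw [e2]
      have : 0 ≤ (c : ℝ) ^ m := by positivity
      nlinarith
  have hdvd : 2 * N ∣ a ^ m * (c ^ m - a ^ m) * c ^ m := dvd_of_idem (2 * N) m₀ hidem j a c (by omega)
  obtain ⟨x, y, z, hx, hy, hxy, hy0, hyx, hz, hxyz, hxc, hcx, hcl⟩ :=
    odd_terms _ _ _ ha1 (by omega) hcop hsum hne η hη0.le hclose
  have hz0 : 0 < z := by omega
  obtain ⟨x₃, y₃, z₃, hx3, hy3, hxy3, hy30, hyx3, hz3, hz30, hN3, hcl3, hcx3, hxc3, hR3⟩ :=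
    to_cusp N x y z (c ^ m) hx hy hxy hy0 hyx hz hz0 hxc hcx (by rw [hxyz]; exact hdvd) η hη0
      (by linarith) hcl
  obtain ⟨P, Q, hPQ, hQP, hQ, heq, hPQc, hP1, hP2, hPR⟩ := dih n hn x₃ y₃ z₃ x₃ hx3 hy3 hxy3 hy30
    hyx3 (Or.inr hz3) hz30 le_rfl (by omega)
  have hP0 : 0 < P := by
    have : 0 < y₃ ^ n := by positivity
    omega
  have hxy0 : 0 < (x₃ * y₃) ^ n := by
    have : 0 < x₃ := by omega
    positivity
  -- sizes
  have hs1 : (c ^ m) ^ (16 * n) ≤ 4 ^ (13 * n + 1) * P ^ 2 := by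
    calc (c ^ m) ^ (16 * n) = ((c ^ m) ^ 8) ^ (2 * n) := by
          rw [← pow_mul (c ^ m) 8, show 8 * (2 * n) = 16 * n by ring]
      _ ≤ (4 ^ 6 * x₃) ^ (2 * n) := Nat.pow_le_pow_left hcx3 _
      _ = 4 ^ (12 * n) * x₃ ^ (2 * n) := by
          rw [mul_pow, ← pow_mul 4 6, show 6 * (2 * n) = 12 * n by ring]
      _ ≤ 4 ^ (12 * n) * (4 ^ (n + 1) * P ^ 2) := Nat.mul_le_mul_left _ hP1
      _ = 4 ^ (12 * n + (n + 1)) * P ^ 2 := by rw [pow_add 4 (12 * n) (n + 1)]; ring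
      _ = _ := by rw [show 12 * n + (n + 1) = 13 * n + 1 by ring]
  have hs2 : P ^ 2 ≤ (c ^ m) ^ (16 * n) := by
    calc P ^ 2 ≤ x₃ ^ (2 * n) := hP2
      _ ≤ ((c ^ m) ^ 8) ^ (2 * n) := Nat.pow_le_pow_left hxc3 _
      _ = _ := by rw [← pow_mul (c ^ m) 8, show 8 * (2 * n) = 16 * n by ring]
  have htj : t ^ j = (((c ^ m) ^ (16 * n) : ℕ) : ℝ) := by
    rw [ht, ← pow_mul]
    push_cast
    rw [← pow_mul]
    congr 1
    rw [hm]; ring
  have hNQ : N ∣ Q := by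
    have h1 : z₃ ∣ x₃ ^ n - y₃ ^ n := by
      have : z₃ = x₃ - y₃ := by omega
      rw [this]; exact Nat.sub_dvd_pow_sub_pow _ _ _
    have h2 : x₃ ^ n - y₃ ^ n = 2 * Q := by omega
    rw [h2] at h1
    exact Nat.dvd_of_mul_dvd_mul_left (by norm_num) (hN3.trans h1)
  have hcl4 := dih_close n x₃ y₃ P Q hPQ hQP (64 * η ^ 2) (by positivity) hη2 hcl3
  refine ⟨16 * n * m, (x₃ * y₃) ^ n, Q ^ 2, P ^ 2, ?_, ?_, hxy0, by positivity, hPQc, heq, ?_, ?_, ?_⟩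
  · exact Nat.mul_pos (by omega) hm1
  · exact Nat.mul_le_mul_left _ hmJ
  · refine ⟨x₃, y₃, P, Q, hPQ.symm, hQP.symm, rfl, rfl, rfl, hNQ, ?_, i, ?_, ?_⟩
    · refine hcl4.trans (mul_le_mul_of_nonneg_right (hη3.trans hδδ) (Nat.cast_nonneg _))
    · have h1 : Y i * 4 ^ (13 * n + 1) ≤ ((P ^ 2 : ℕ) : ℝ) * 4 ^ (13 * n + 1) := by
        calc Y i * 4 ^ (13 * n + 1) ≤ t ^ j := hji1
          _ = (((c ^ m) ^ (16 * n) : ℕ) : ℝ) := htj
          _ ≤ ((4 ^ (13 * n + 1) * P ^ 2 : ℕ) : ℝ) := by exact_mod_cast hs1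
          _ = _ := by push_cast; ring
      exact le_of_mul_le_mul_right h1 (by positivity)
    · calc ((P ^ 2 : ℕ) : ℝ) ≤ (((c ^ m) ^ (16 * n) : ℕ) : ℝ) := by exact_mod_cast hs2
        _ = t ^ j := htj.symm
        _ ≤ (Y i) ^ (1 + δ₁) := hji2
        _ ≤ (Y i) ^ (1 + δ) := Real.rpow_le_rpow_of_exponent_le (hY i).le (by linarith)
  · calc (c : ℝ) ^ (16 * n * m) = (((c ^ m) ^ (16 * n) : ℕ) : ℝ) := by
          push_cast; rw [← pow_mul]; congr 1; ring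
      _ ≤ ((4 ^ (13 * n + 1) * P ^ 2 : ℕ) : ℝ) := by exact_mod_cast hs1
      _ = (4 : ℝ) ^ (13 * n + 1) * ((P ^ 2 : ℕ) : ℝ) := by push_cast; ring
      _ ≤ _ := mul_le_mul_of_nonneg_right (le_max_left _ _) (Nat.cast_nonneg _)
  · have hpm := power_map m hm1 a b c ha hb habc
    have h1 : R ((x₃ * y₃) ^ n * Q ^ 2 * P ^ 2) ≤
        R (a * b * c) * (8 * n * m * c ^ (16 * n * m - 1)) := by
      calc R ((x₃ * y₃) ^ n * Q ^ 2 * P ^ 2) ≤ R (x₃ * y₃ * z₃) * (2 * n * x₃ ^ (2 * n - 1)) := hPR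
        _ ≤ (R (x * y * z) * (4 * (c ^ m) ^ 7)) * (2 * n * ((c ^ m) ^ 8) ^ (2 * n - 1)) :=
            Nat.mul_le_mul hR3 (Nat.mul_le_mul_left _ (Nat.pow_le_pow_left hxc3 _))
        _ = (R (a ^ m * (c ^ m - a ^ m) * c ^ m) * (4 * (c ^ m) ^ 7)) *
            (2 * n * ((c ^ m) ^ 8) ^ (2 * n - 1)) := by rw [hxyz]
        _ ≤ ((R (a * b * c) * (m * c ^ (m - 1))) * (4 * (c ^ m) ^ 7)) *
            (2 * n * ((c ^ m) ^ 8) ^ (2 * n - 1)) :=
            Nat.mul_le_mul_right _ (Nat.mul_le_mul_right _ hpm)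
        _ = R (a * b * c) * (8 * n * m * (c ^ (m - 1) * (c ^ m) ^ 7 * ((c ^ m) ^ 8) ^ (2 * n - 1))) := by
            ring
        _ = _ := by
            rw [← pow_mul, ← pow_mul, ← pow_mul, ← pow_add, ← pow_add]
            congr 3
            obtain ⟨k, hk⟩ : ∃ k, 2 * n = k + 1 := ⟨2 * n - 1, by omega⟩
            have e1 : 2 * n - 1 = k := by omega
            have e2 : 16 * n * m = m * 8 * k + 8 * m := by
              calc 16 * n * m = 8 * (2 * n) * m := by ring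
                _ = _ := by rw [hk]; ring
            have e3 : m * (8 * k) = m * 8 * k := by ring
            rw [e1, e2]
            omega
    calc (R ((x₃ * y₃) ^ n * Q ^ 2 * P ^ 2) : ℝ)
        ≤ ((R (a * b * c) * (8 * n * m * c ^ (16 * n * m - 1)) : ℕ) : ℝ) := by exact_mod_cast h1
      _ = ((8 * n * m : ℕ) : ℝ) * R (a * b * c) * (c : ℝ) ^ (16 * n * m - 1) := by push_cast; ring
      _ ≤ _ := by
          apply mul_le_mul_of_nonneg_right _ (by positivity)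
          apply mul_le_mul_of_nonneg_right _ (Nat.cast_nonneg _)
          refine le_trans ?_ (le_max_right _ _)
          have : 8 * n * m ≤ E := by
            rw [hE]
            exact Nat.mul_le_mul (by omega) hmJ
          exact_mod_cast this

end Pool.Agent.U215.Thin
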