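import Mathlib

set_option autoImplicit false

/-! # Transfer of refined inequalities (logarithmic form) -/

namespace Pool.Agent.U215.Thin

open Filter Topology

/-- `f (C x + C) + C ≤ x / (2 D) + M` for all `x ≥ 0`, if `f x = o(x)` -/
lemma small_slope (f : ℝ → ℝ) (hf : MonotoneOn f (Set.Ici 0)) (h0 : Tendsto (fun x => f x / x) atTop (𝓝 0))
    (C : ℝ) (hC : 0 ≤ C) (D : ℝ) (hD : 1 ≤ D) :
    ∃ M : ℝ, 0 ≤ M ∧ ∀ x : ℝ, 0 ≤ x → f (C * x + C) + C ≤ x / (2 * D) + M := by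
  obtain ⟨ε, hε⟩ : ∃ ε : ℝ, ε = 1 / (2 * D * (C + 1)) := ⟨_, rfl⟩
  have hε0 : 0 < ε := by rw [hε]; positivity
  have h1 : ∀ᶠ x in atTop, f x / x < ε := (tendsto_order.1 h0).2 ε hε0
  obtain ⟨x₁, hx₁⟩ := eventually_atTop.1 (h1.and (eventually_ge_atTop 1))
  have hx1 : 1 ≤ x₁ := (hx₁ x₁ le_rfl).2
  refine ⟨1 + |f x₁| + C, by positivity, ?_⟩
  intro x hx
  have hεC : ε * (C + 1) = 1 / (2 * D) := by
    rw [hε]
    field_simp
  have hxD : 0 ≤ x / (2 * D) := by positivity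
  have hy0 : 0 ≤ C * x + C := by positivity
  rcases le_or_gt x₁ (C * x + C) with h | h
  · have h2 := (hx₁ _ h).1
    have hy : 0 < C * x + C := by linarith
    rw [div_lt_iff₀ hy] at h2
    have h3 : ε * (C * x + C) ≤ ε * (C + 1) * x + ε * (C + 1) := by nlinarith
    have h4 : ε * (C + 1) * x = x / (2 * D) := by rw [hεC]; ring
    have h5 : ε * (C + 1) ≤ 1 := by
      rw [hεC, div_le_one (by positivity)]
      linarith
    have h6 := abs_nonneg (f x₁)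
    linarith
  · have h2 : f (C * x + C) ≤ f x₁ := hf hy0 (by
      show (0 : ℝ) ≤ x₁
      linarith) h.le
    have h3 := le_abs_self (f x₁)
    linarith

/-- The exponent of the inequality. -/
lemma exponent_step {ℓ ρ ℓ' ρ' k κ lam s : ℝ} {d D : ℕ} (hd : 1 ≤ d) (hdD : d ≤ D) (hlam : 1 ≤ lam)
    (hs : s = 1 - (lam - 1) * (D - 1)) (hs0 : 0 < s) (hℓ : 0 ≤ ℓ)
    (h1 : d * ℓ ≤ k + ℓ') (h2 : ρ' ≤ k + ρ + (d - 1) * ℓ) (h3 : ℓ' ≤ κ + lam * ρ') :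
    ℓ ≤ (k + κ + lam * k) / s + lam / s * ρ := by
  have hdD' : (d : ℝ) ≤ D := by exact_mod_cast hdD
  have hd1 : (1 : ℝ) ≤ d := by exact_mod_cast hd
  have h4 := mul_le_mul_of_nonneg_left h2 (show 0 ≤ lam by linarith)
  have h5 : (d : ℝ) * ℓ ≤ k + κ + lam * (k + ρ + (d - 1) * ℓ) := by linarith
  have h6 : (lam - 1) * ((d : ℝ) - 1) * ℓ ≤ (lam - 1) * (D - 1) * ℓ := by
    apply mul_le_mul_of_nonneg_right _ hℓ
    apply mul_le_mul_of_nonneg_left _ (by linarith)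
    linarith
  have h7 : s * ℓ ≤ k + κ + lam * k + lam * ρ := by
    rw [hs]
    nlinarith
  have h8 : ℓ ≤ (k + κ + lam * k + lam * ρ) / s := by
    rw [le_div_iff₀ hs0]
    linarith
  refine h8.trans (le_of_eq ?_)
  ring

/-- Refined inequalities. -/
lemma refined_step {ℓ ρ ℓ' ρ' k C M : ℝ} {d D : ℕ} (f : ℝ → ℝ) (hf : MonotoneOn f (Set.Ici 0))
    (hC : 0 ≤ C) (hM : 0 ≤ M) (hk : 0 ≤ k) (hd : 1 ≤ d) (hdD : d ≤ D) (hℓ : 0 ≤ ℓ) (hρ : 0 ≤ ρ)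
    (hρ' : 0 ≤ ρ')
    (hfM : ∀ x : ℝ, 0 ≤ x → f (C * x + C) + C ≤ x / (2 * D) + M)
    (h1 : d * ℓ ≤ k + ℓ') (h2 : ρ' ≤ k + ρ + (d - 1) * ℓ) (h3 : ℓ' ≤ ρ' + f (C * ρ' + C) + C)
    {B : ℝ} (hB1 : C * (1 + 4 * D) ≤ B) (hB2 : C * (k + D * (6 * k + 2 * M)) + C ≤ B)
    (hB3 : 2 * k + C ≤ B) :
    ℓ ≤ ρ + f (B * ρ + B) + B := by
  have hdD' : (d : ℝ) ≤ D := by exact_mod_cast hdD
  have hd1 : (1 : ℝ) ≤ d := by exact_mod_cast hd
  have hD1 : (1 : ℝ) ≤ D := hd1.trans hdD'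
  have hx0 : 0 ≤ k + ρ + ((D : ℝ) - 1) * ℓ := by
    have : 0 ≤ ((D : ℝ) - 1) * ℓ := mul_nonneg (by linarith) hℓ
    linarith
  have h4 : (d - 1 : ℝ) * ℓ ≤ (D - 1) * ℓ := mul_le_mul_of_nonneg_right (by linarith) hℓ
  have h5 : C * ρ' + C ≤ C * (k + ρ + ((D : ℝ) - 1) * ℓ) + C := by
    have : ρ' ≤ k + ρ + ((D : ℝ) - 1) * ℓ := by linarith
    have := mul_le_mul_of_nonneg_left this hC
    linarith
  have h6 : f (C * ρ' + C) ≤ f (C * (k + ρ + ((D : ℝ) - 1) * ℓ) + C) := by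
    apply hf _ _ h5
    · show (0 : ℝ) ≤ _
      positivity
    · show (0 : ℝ) ≤ _
      have := mul_nonneg hC hx0
      linarith
  have h7 : ℓ ≤ 2 * k + ρ + (f (C * (k + ρ + ((D : ℝ) - 1) * ℓ) + C) + C) := by nlinarith
  have h8 := hfM _ hx0
  have h9 : (k + ρ + ((D : ℝ) - 1) * ℓ) / (2 * D) ≤ k + ρ + ℓ / 2 := by
    rw [div_le_iff₀ (by linarith)]
    have e1 : 0 ≤ k * (2 * D - 1) := mul_nonneg hk (by linarith)
    have e2 : 0 ≤ ρ * (2 * D - 1) := mul_nonneg hρ (by linarith)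
    nlinarith
  have h10 : ℓ ≤ 4 * ρ + 6 * k + 2 * M := by linarith
  have h11 : C * (k + ρ + ((D : ℝ) - 1) * ℓ) + C ≤ B * ρ + B := by
    have e1 : ((D : ℝ) - 1) * ℓ ≤ D * (4 * ρ + 6 * k + 2 * M) := by
      have e0 : 0 ≤ 4 * ρ + 6 * k + 2 * M := by positivity
      calc ((D : ℝ) - 1) * ℓ ≤ (D - 1) * (4 * ρ + 6 * k + 2 * M) :=
            mul_le_mul_of_nonneg_left h10 (by linarith)
        _ ≤ _ := mul_le_mul_of_nonneg_right (by linarith) e0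
    have e2 : C * (k + ρ + ((D : ℝ) - 1) * ℓ) ≤ C * (k + ρ + D * (4 * ρ + 6 * k + 2 * M)) :=
      mul_le_mul_of_nonneg_left (by linarith) hC
    have e3 : C * (k + ρ + D * (4 * ρ + 6 * k + 2 * M)) + C =
        C * (1 + 4 * D) * ρ + (C * (k + D * (6 * k + 2 * M)) + C) := by ring
    have e4 : C * (1 + 4 * D) * ρ ≤ B * ρ := mul_le_mul_of_nonneg_right hB1 hρ
    linarith
  have hB0 : 0 ≤ B := by
    have : 0 ≤ 2 * k + C := by linarith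
    linarith
  have h12 : f (C * (k + ρ + ((D : ℝ) - 1) * ℓ) + C) ≤ f (B * ρ + B) := by
    apply hf _ _ h11
    · show (0 : ℝ) ≤ _
      have := mul_nonneg hC hx0
      linarith
    · show (0 : ℝ) ≤ _
      positivity
  linarith

end Pool.Agent.U215.Thin
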